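import Pool.Agent.Helper8.OC.Tr

/-!
# Closure points

PIECE OC-4.
-/

set_option autoImplicit false

namespace Pool.Agent.Helper8.OC

open Cardinal Set

section

variable {W X : Type} [LinearOrder W] [WellFoundedLT W] [TopologicalSpace X]

/-- PROOF. For `j γ : W`, `n : ℕ` let `R j γ n = {δ ∈ AA U μ j | γ < δ ∧ ¬ Rch U μ (AA U μ j) γ δ n}`. By
`tree_bound` `#(R j γ n) < β`: if `δ ∈ R j γ n`, `P ⊆ R j γ n`, `IsCh U P δ` and `μ n ≤ #P` then
`exists_len` gives `P₀ ⊆ P` with `Len P₀ (μ n)` and `Rch U μ (AA U μ j) γ δ n`.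
So for a subset `S` of `W` with `#S ≤ β` there is `w` above all elements of `R j γ n`, `j ≤ x`, `γ ∈ S`,
`n : ℕ` (`hB`; `#(Iic x) ≤ β`). Choose `w : ℕ → W` with `w k < w (k + 1)` and `δ < w (k + 1)` for all
`δ ∈ R j γ n` with `j ≤ x`, `γ ≤ w k`. Let `δ` be the least upper bound: the least element of
`{d | ∀ k, w k < d}` (nonempty by `hB`). If `γ < δ` then `γ ≤ w k` for some `k` (minimality). So no
`R j γ n` with `j ≤ x`, `γ < δ` contains `δ`. By induction on `j ≤ x`: `δ ∈ AA U μ j` (`mem_AA`) and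
`Rch U μ (AA U μ j) γ δ n` for `γ < δ`. -/
theorem exists_ok {β : Cardinal.{0}} (hβ : β.IsStrongLimit) (hβ0 : ℵ₀ < β) (μ : ℕ → Cardinal.{0})
    (hμ : ∀ n, (μ n).IsRegular) (hμβ : ∀ n, μ n < β) (hI : ∀ w : W, #(Iic w) ≤ β)
    (hB : ∀ S : Set W, #S ≤ β → ∃ w, ∀ s ∈ S, s < w) (U : W → Set X) (x : W) :
    ∃ δ, (∃ γ, γ < δ) ∧ Ok U μ x δ := by
  classical
  let R : W → W → ℕ → Set W := fun j γ n =>
    {δ | δ ∈ AA U μ j ∧ γ < δ ∧ ¬ Rch U μ (AA U μ j) γ δ n}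
  have hR : ∀ j γ n, #(R j γ n) < β := by
    intro j γ n
    refine tree_bound hβ hβ0 (hμ n) (hμβ n) U (R j γ n) ?_
    intro δ hδ P hP hch
    by_contra hcon
    obtain ⟨P₀, hP₀, hlen⟩ := exists_len (not_lt.1 hcon)
    exact hδ.2.2 ⟨P₀, fun η hη => (hP (hP₀ hη)).1, fun η hη => (hP (hP₀ hη)).2.1,
      hch.mono hP₀, hlen⟩
  have hstep : ∀ w : W, ∃ w' : W, w < w' ∧ ∀ j ≤ x, ∀ γ ≤ w, ∀ n, ∀ δ ∈ R j γ n, δ < w' := by
    intro w
    let T : Set W := ⋃ i : ↥(Iic x) × ↥(Iic w) × ℕ, R i.1.1 i.2.1.1 i.2.2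
    have h1 : #T ≤ β := by
      refine (mk_iUnion_le_sum_mk).trans ?_
      refine (sum_le_sum _ (fun _ => β) fun i => (hR _ _ _).le).trans ?_
      rw [sum_const', mk_prod, mk_prod, lift_id, lift_id, lift_id, lift_id]
      refine mul_le_of_le hβ0.le ?_ le_rfl
      refine mul_le_of_le hβ0.le (hI x) ?_
      refine mul_le_of_le hβ0.le (hI w) ?_
      rw [mk_nat]
      exact hβ0.le
    have h2 : #(T ∪ {w} : Set W) ≤ β := by
      refine (mk_union_le _ _).trans ?_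
      refine add_le_of_le hβ0.le h1 ?_
      rw [mk_singleton]
      exact one_le_aleph0.trans hβ0.le
    obtain ⟨w', hw'⟩ := hB _ h2
    refine ⟨w', hw' w (Or.inr rfl), fun j hj γ hγ n δ hδ => hw' δ (Or.inl ?_)⟩
    exact mem_iUnion.2 ⟨(⟨j, hj⟩, ⟨γ, hγ⟩, n), hδ⟩
  choose nxt hnxt1 hnxt2 using hstep
  let w : ℕ → W := fun k => nxt^[k] x
  have hw : ∀ k, w (k + 1) = nxt (w k) := fun k => Function.iterate_succ_apply' nxt k x
  obtain ⟨d₀, hd₀⟩ := hB (range w) (mk_range_le.trans (by rw [mk_nat]; exact hβ0.le))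
  have hne : {d | ∀ k, w k < d}.Nonempty := ⟨d₀, fun k => hd₀ _ (mem_range_self k)⟩
  obtain ⟨δ, hδ1, hδ2⟩ : ∃ δ, (∀ k, w k < δ) ∧ ∀ γ < δ, ∃ k, γ ≤ w k := by
    refine ⟨(wellFounded_lt : WellFounded ((· < ·) : W → W → Prop)).min _ hne,
      WellFounded.min_mem _ _ hne, fun γ hγ => ?_⟩
    by_contra hcon
    push Not at hcon
    exact WellFounded.not_lt_min wellFounded_lt {d | ∀ k, w k < d} (x := γ) hcon hγ
  have hnot : ∀ j ≤ x, ∀ γ < δ, ∀ n, δ ∉ R j γ n := by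
    intro j hj γ hγ n hmem
    obtain ⟨k, hk⟩ := hδ2 γ hγ
    have h1 := hnxt2 (w k) j hj γ hk n δ hmem
    rw [← hw k] at h1
    exact lt_asymm h1 (hδ1 (k + 1))
  have key : ∀ j, j ≤ x → δ ∈ AA U μ j ∧ ∀ γ < δ, ∀ n, Rch U μ (AA U μ j) γ δ n := by
    intro j
    induction j using WellFoundedLT.induction with
    | ind j ih =>
      intro hj
      have h1 : δ ∈ AA U μ j := by
        rw [mem_AA]
        intro j' hj' γ hγ n
        exact (ih j' hj' (hj'.le.trans hj)).2 γ hγ n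
      refine ⟨h1, fun γ hγ n => ?_⟩
      by_contra hcon
      exact hnot j hj γ hγ n ⟨h1, hγ, hcon⟩
  exact ⟨δ, ⟨w 0, hδ1 0⟩, fun j hj γ hγ n => (key j hj).2 γ hγ n⟩

end

end Pool.Agent.Helper8.OC
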