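import Mathlib

/-!
# Ordinal calibers: definitions

`U : W → Set X` is a family of open sets, indexed by a well-order `W`.
-/

set_option autoImplicit false

namespace Pool.Agent.Helper8.OC

open Cardinal Set

section

variable {W X : Type} [LinearOrder W] [TopologicalSpace X]

/-- finite intersections -/
def VV (U : W → Set X) (F : Finset W) : Set X := ⋂ i ∈ F, U i

/-- centred families -/
def Cen (U : W → Set X) (C : Set W) : Prop :=
  ∀ F : Finset W, (F : Set W) ⊆ C → (VV U F).Nonempty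

/-- `ξ` and `η` have the same type over `D` -/
def Sim (U : W → Set X) (D : Set W) (ξ η : W) : Prop :=
  ∀ H : Finset W, (H : Set W) ⊆ D → ∀ G : Set (Finset W), (∀ g ∈ G, ((g : Finset W) : Set W) ⊆ D) →
    (U ξ ∩ VV U H ⊆ closure (⋃ g ∈ G, VV U g) ↔ U η ∩ VV U H ⊆ closure (⋃ g ∈ G, VV U g))

/-- `P` is a chain for `δ` -/
def IsCh (U : W → Set X) (P : Set W) (δ : W) : Prop :=
  P ⊆ Iio δ ∧ ∀ η ∈ P, Sim U (P ∩ Iio η) η δ

/-- all initial segments of `P` have size less than `μ`, and `P` does not -/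
def Len (P : Set W) (μ : Cardinal.{0}) : Prop :=
  μ ≤ #P ∧ ∀ η ∈ P, #(P ∩ Iio η : Set W) < μ

/-- cellular families have size at most `κ` -/
def Cell (X : Type) [TopologicalSpace X] (κ : Cardinal.{0}) : Prop :=
  ∀ S : Set (Set X), (∀ u ∈ S, IsOpen u ∧ u.Nonempty) → S.PairwiseDisjoint id → #S ≤ κ

/-- there are chains of length `μ n` for `δ` inside `A`, above `γ` -/
def Rch (U : W → Set X) (μ : ℕ → Cardinal.{0}) (A : Set W) (γ δ : W) (n : ℕ) : Prop :=
  ∃ P : Set W, P ⊆ A ∧ P ⊆ Ioi γ ∧ IsCh U P δ ∧ Len P (μ n)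

/-- the sets `A i` -/
def AA (U : W → Set X) (μ : ℕ → Cardinal.{0}) [WellFoundedLT W] : W → Set W :=
  (wellFounded_lt : WellFounded ((· < ·) : W → W → Prop)).fix fun i ih =>
    {δ | ∀ j, ∀ hj : j < i, ∀ γ < δ, ∀ n, Rch U μ (ih j hj) γ δ n}

theorem mem_AA {U : W → Set X} {μ : ℕ → Cardinal.{0}} [WellFoundedLT W] {i δ : W} :
    δ ∈ AA U μ i ↔ ∀ j < i, ∀ γ < δ, ∀ n, Rch U μ (AA U μ j) γ δ n := by
  unfold AA
  rw [WellFounded.fix_eq]
  rfl

/-- `δ` may be used as the value at `x` -/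
def Ok (U : W → Set X) (μ : ℕ → Cardinal.{0}) [WellFoundedLT W] (x δ : W) : Prop :=
  ∀ j ≤ x, ∀ γ < δ, ∀ n, Rch U μ (AA U μ j) γ δ n

/-- the finite stages of the construction -/
structure Good (U : W → Set X) (μ : ℕ → Cardinal.{0}) [WellFoundedLT W] (S : Set W)
    (b : W → W) : Prop where
  mono : StrictMonoOn b S
  ok : ∀ x ∈ S, Ok U μ x (b x)
  gap : ∀ x ∈ S, ∃ γ < b x, ∀ z ∈ S, z < x → b z ≤ γ
  cen : Cen U (b '' S)

end

end Pool.Agent.Helper8.OC
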