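import Pool.Agent.Helper8.OC.Step
import Pool.Agent.Helper8.OC.Cl

/-!
# The theorem

PIECE OC-6.
-/

set_option autoImplicit false

namespace Pool.Agent.Helper8.OC

open Cardinal Set

section

variable {W X : Type} [LinearOrder W] [WellFoundedLT W] [TopologicalSpace X]

/-- PROOF. Let `S n = {y < ε | lev y < n} ∪ {ε}`, `#(S n) < μ n`. `S 0 = {ε}`, `b₀ = fun _ => δ` from
`exists_ok` (`x = ε`). `step` for `S n ⊆ S (n + 1)` with `μ (n + 1)`. Choice of a sequence `b n` with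
`Good U μ (S n) (b n)` and `b (n + 1) = b n` on `S n`. `b y = b (lev y + 1) y`. -/
theorem centred {β κ : Cardinal.{0}} (hβ : β.IsStrongLimit) (hβ0 : ℵ₀ < β) (μ : ℕ → Cardinal.{0})
    (hμ : ∀ n, (μ n).IsRegular) (hμβ : ∀ n, μ n < β) (hκμ : ∀ n, κ < μ n) (hμ0 : ∀ n, ℵ₀ < μ n)
    (hI : ∀ w : W, #(Iic w) ≤ β)
    (hB : ∀ S : Set W, #S ≤ β → ∃ w, ∀ s ∈ S, s < w) (hX : Cell X κ) {U : W → Set X}
    (hU : ∀ i, IsOpen (U i)) (hne : ∀ i, (U i).Nonempty) (ε : W) (lev : W → ℕ)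
    (hlev : ∀ n, #{y | y < ε ∧ lev y ≤ n} < μ n) :
    ∃ b : W → W, StrictMonoOn b (Iio ε) ∧ Cen U (b '' Iio ε) := by
  classical
  obtain ⟨S, hS⟩ : ∃ S : ℕ → Set W, S = fun n => {y | y < ε ∧ lev y < n} ∪ {ε} := ⟨_, rfl⟩
  have hmem : ∀ n y, y ∈ S n ↔ (y < ε ∧ lev y < n) ∨ y = ε := by
    intro n y
    rw [hS]
    rfl
  have hcard : ∀ n, #(S n) < μ n := by
    intro n
    rw [hS]
    refine (mk_union_le _ _).trans_lt (add_lt_of_lt (hμ n).aleph0_le ?_ ?_)
    · have h1 : {y | y < ε ∧ lev y < n} ⊆ {y | y < ε ∧ lev y ≤ n} := fun y hy => ⟨hy.1, hy.2.le⟩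
      exact (mk_le_mk_of_subset h1).trans_lt (hlev n)
    · rw [mk_singleton]
      exact one_lt_aleph0.trans (hμ0 n)
  have hmono : ∀ n, S n ⊆ S (n + 1) := by
    intro n y hy
    rw [hmem] at hy ⊢
    rcases hy with hy | hy
    · exact Or.inl ⟨hy.1, Nat.lt_succ_of_lt hy.2⟩
    · exact Or.inr hy
  have hle : ∀ n, S n ⊆ Iic ε := by
    intro n y hy
    rw [hmem] at hy
    rcases hy with hy | hy
    · exact hy.1.le
    · exact hy.le
  obtain ⟨δ, hδ1, hδ2⟩ := exists_ok hβ hβ0 μ hμ hμβ hI hB U ε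
  have h0 : Good U μ (S 0) fun _ => δ := by
    have hS0 : ∀ y ∈ S 0, y = ε := by
      intro y hy
      rw [hmem] at hy
      rcases hy with hy | hy
      · exact absurd hy.2 (Nat.not_lt_zero _)
      · exact hy
    refine ⟨?_, ?_, ?_, ?_⟩
    · intro x hx y hy hxy
      rw [hS0 x hx, hS0 y hy] at hxy
      exact absurd hxy (lt_irrefl ε)
    · intro x hx
      rw [hS0 x hx]
      exact hδ2
    · intro x hx
      obtain ⟨γ, hγ⟩ := hδ1
      refine ⟨γ, hγ, fun z hz hzx => ?_⟩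
      rw [hS0 x hx, hS0 z hz] at hzx
      exact absurd hzx (lt_irrefl ε)
    · intro F hF
      obtain ⟨x, hx⟩ := hne δ
      refine ⟨x, ?_⟩
      unfold VV
      rw [mem_iInter₂]
      intro i hi
      obtain ⟨z, _, hz⟩ := hF (Finset.mem_coe.2 hi)
      rw [← hz]
      exact hx
  have hstep : ∀ n (b : {b : W → W // Good U μ (S n) b}), ∃ b' : {b : W → W // Good U μ (S (n + 1)) b},
      ∀ x ∈ S n, b'.1 x = b.1 x := by
    intro n b
    obtain ⟨b', h1, h2⟩ := step μ (n + 1) (hμ _) (hκμ _) (hμ0 _) hX hU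
      (show ε ∈ S n by rw [hmem]; exact Or.inr rfl) (hle (n + 1)) (hmono n) (hcard (n + 1)) b.2
    exact ⟨⟨b', h1⟩, h2⟩
  choose nxt hnxt using hstep
  let bs : (n : ℕ) → {b : W → W // Good U μ (S n) b} := fun n =>
    Nat.rec ⟨fun _ => δ, h0⟩ (fun n b => nxt n b) n
  have hbs : ∀ n, ∀ x ∈ S n, (bs (n + 1)).1 x = (bs n).1 x := fun n => hnxt n (bs n)
  have hSle : ∀ n m, n ≤ m → S n ⊆ S m := fun n m h => by
    induction m, h using Nat.le_induction with
    | base => exact subset_rfl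
    | succ m _ ih => exact ih.trans (hmono m)
  have hbs' : ∀ n m, n ≤ m → ∀ x ∈ S n, (bs m).1 x = (bs n).1 x := fun n m h => by
    induction m, h using Nat.le_induction with
    | base => exact fun x _ => rfl
    | succ m h ih =>
      intro x hx
      rw [hbs m x (hSle n m h hx), ih x hx]
  have hlevS : ∀ y < ε, y ∈ S (lev y + 1) := fun y hy => by
    rw [hmem]
    exact Or.inl ⟨hy, Nat.lt_succ_self _⟩
  refine ⟨fun y => (bs (lev y + 1)).1 y, ?_, ?_⟩
  · intro y hy y' hy' hlt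
    have h1 := hlevS y hy
    have h2 := hlevS y' hy'
    have h3 : lev y + 1 ≤ max (lev y + 1) (lev y' + 1) := le_max_left _ _
    have h4 : lev y' + 1 ≤ max (lev y + 1) (lev y' + 1) := le_max_right _ _
    change (bs (lev y + 1)).1 y < (bs (lev y' + 1)).1 y'
    rw [← hbs' _ _ h3 y h1, ← hbs' _ _ h4 y' h2]
    exact (bs _).2.mono (hSle _ _ h3 h1) (hSle _ _ h4 h2) hlt
  · have himg : ∀ n m, n ≤ m → (bs n).1 '' S n ⊆ (bs m).1 '' S m := by
      rintro n m h _ ⟨x, hx, rfl⟩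
      exact ⟨x, hSle n m h hx, hbs' n m h x hx⟩
    have key : ∀ F : Finset W, (F : Set W) ⊆ (fun y => (bs (lev y + 1)).1 y) '' Iio ε →
        ∃ m, (F : Set W) ⊆ (bs m).1 '' S m := by
      intro F
      induction F using Finset.induction_on with
      | empty =>
        intro _
        refine ⟨0, ?_⟩
        rw [Finset.coe_empty]
        exact empty_subset _
      | insert a F _ ih =>
        intro hF
        rw [Finset.coe_insert] at hF ⊢
        obtain ⟨m, hm⟩ := ih ((subset_insert _ _).trans hF)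
        obtain ⟨y, hy, hya⟩ := hF (mem_insert a _)
        refine ⟨max (lev y + 1) m, insert_subset ?_ (hm.trans (himg _ _ (le_max_right _ _)))⟩
        rw [← hya]
        exact himg _ _ (le_max_left _ _) ⟨y, hlevS y hy, rfl⟩
    intro F hF
    obtain ⟨m, hm⟩ := key F hF
    exact (bs m).2.cen F hm

end

end Pool.Agent.Helper8.OC
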