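import Pool.Agent.Helper8.OC.Sm

/-!
# Insertion

PIECE OC-3.
-/

set_option autoImplicit false

namespace Pool.Agent.Helper8.OC

open Cardinal Set

section

variable {W X : Type} [LinearOrder W] [WellFoundedLT W] [TopologicalSpace X]

theorem VV_insert [DecidableEq W] (U : W → Set X) (η : W) (F : Finset W) :
    VV U (insert η F) = U η ∩ VV U F := by
  unfold VV
  rw [Finset.set_biInter_insert]

theorem VV_anti (U : W → Set X) {F G : Finset W} (h : F ⊆ G) : VV U G ⊆ VV U F := by
  intro x hx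
  unfold VV at hx ⊢
  rw [mem_iInter₂] at hx ⊢
  exact fun i hi => hx i (h hi)

theorem VV_union [DecidableEq W] (U : W → Set X) (F G : Finset W) :
    VV U (F ∪ G) = VV U F ∩ VV U G := by
  apply Subset.antisymm
  · exact subset_inter (VV_anti U Finset.subset_union_left) (VV_anti U Finset.subset_union_right)
  · rintro x ⟨h1, h2⟩
    unfold VV at h1 h2 ⊢
    rw [mem_iInter₂] at h1 h2 ⊢
    intro i hi
    rcases Finset.mem_union.1 hi with h | h
    · exact h1 i h
    · exact h2 i h

theorem mk_finsets_lt {C : Set W} {μ : Cardinal.{0}} (hμ0 : ℵ₀ < μ) (hC : #C < μ) :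
    #{F : Finset W | (F : Set W) ⊆ C} < μ := by
  classical
  have h1 : #{F : Finset W | (F : Set W) ⊆ C} ≤ #(Finset C) := by
    refine mk_le_of_injective (f := fun F => F.1.subtype (· ∈ C)) ?_
    intro F G h
    have h2 : (F.1.subtype (· ∈ C)).map (Function.Embedding.subtype _) = F.1 :=
      Finset.subtype_map_of_mem fun x hx => F.2 hx
    have h3 : (G.1.subtype (· ∈ C)).map (Function.Embedding.subtype _) = G.1 :=
      Finset.subtype_map_of_mem fun x hx => G.2 hx
    apply Subtype.ext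
    rw [← h2, ← h3]
    exact congrArg _ h
  refine h1.trans_lt ?_
  rcases finite_or_infinite C with hf | hf
  · exact (lt_aleph0_of_finite _).trans hμ0
  · rw [mk_finset_of_infinite]
    exact hC

/-- If `C` is centred, `δ ∈ C`, `#C < μ` and `P` is a chain of length `μ` for `δ`, then all but
fewer than `μ` elements of `P` can be added to `C`.
PROOF. For a finite `F ⊆ C` let `O F = {G : Finset W | ↑G ⊆ P ∧ VV U G ∩ VV U F = ∅}`. By `exists_dense`
(index set `Finset W`) there is `O' F ⊆ O F`, `#(O' F) ≤ κ < μ`, with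
`⋃ G ∈ O F, VV U G ⊆ closure (⋃ G ∈ O' F, VV U G)`. The union `T` of all `G ∈ O' F`, `F ⊆ C` finite, is a
subset of `P` of size `< μ` (regularity, `μ` uncountable or `κ` infinite; the number of `F` is less than
`μ`: `#{F | ↑F ⊆ C} < μ`). By `Len.bdd` there is `η₀ ∈ P` above `T`. Claim: `C ∪ (P ∩ Ioi η₀)` is centred.
A finite subset is contained in `F ∪ H`, `F ⊆ C`, `δ ∈ F`, `H ⊆ P ∩ Ioi η₀` finite. Induction on `H`,
adding a largest element (`Finset.induction_on_max`): `H = insert η H'`, `Z = VV U H' ∩ VV U F`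
is nonempty (and open). If `U η ∩ Z = ∅` then `insert η H' ∈ O F`, so
`U η ∩ VV U H' ⊆ closure (⋃ G ∈ O' F, VV U G)`. All elements of `H'` and of the `G ∈ O' F` are in
`P ∩ Iio η` (`G ⊆ T < η₀ < η`). By `Sim U (P ∩ Iio η) η δ`: `U δ ∩ VV U H' ⊆ closure (⋃ G ∈ O' F, VV U G)`.
`Z ⊆ U δ ∩ VV U H'`, so the open nonempty set `Z` meets some `VV U G`, `G ∈ O' F`, but
`VV U G ∩ VV U F = ∅`. -/
theorem insertion {κ μ : Cardinal.{0}} (hμ : μ.IsRegular) (hκμ : κ < μ) (hμ0 : ℵ₀ < μ)
    (hX : Cell X κ) {U : W → Set X} (hU : ∀ i, IsOpen (U i)) {C P : Set W} {δ : W}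
    (hC : Cen U C) (hδ : δ ∈ C) (hCμ : #C < μ) (hP : IsCh U P δ) (hPμ : Len P μ) :
    ∃ η₀ ∈ P, Cen U (C ∪ (P ∩ Ioi η₀)) := by
  classical
  let O : Finset W → Set (Finset W) := fun F => {G | (G : Set W) ⊆ P ∧ VV U G ∩ VV U F = ∅}
  choose O' hO'sub hO'card hO'dense using fun F : Finset W =>
    exists_dense hX (fun G : Finset W => VV U G) (isOpen_VV hU) (O F)
  let T : Set W := ⋃ F ∈ {F : Finset W | (F : Set W) ⊆ C}, ⋃ G ∈ O' F, ((G : Finset W) : Set W)
  have hTP : T ⊆ P := by
    refine iUnion₂_subset fun F _ => iUnion₂_subset fun G hG => ?_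
    exact (hO'sub F hG).1
  have hTμ : #T < μ := by
    rw [card_biUnion_lt_iff_forall_of_isRegular hμ (mk_finsets_lt hμ0 hCμ)]
    intro F _
    rw [card_biUnion_lt_iff_forall_of_isRegular hμ ((hO'card F).trans_lt hκμ)]
    intro G _
    exact (lt_aleph0_of_finite _).trans hμ0
  obtain ⟨η₀, hη₀, hTη⟩ := hPμ.bdd hμ hTP hTμ
  refine ⟨η₀, hη₀, ?_⟩
  have key : ∀ F : Finset W, (F : Set W) ⊆ C → δ ∈ F → ∀ H : Finset W,
      (H : Set W) ⊆ P ∩ Ioi η₀ → (VV U H ∩ VV U F).Nonempty := by
    intro F hF hδF H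
    induction H using Finset.induction_on_max with
    | empty =>
      intro _
      have h1 : VV U (∅ : Finset W) = (Set.univ : Set X) := by
        unfold VV
        simp
      rw [h1, univ_inter]
      exact hC F hF
    | insert η H' hmax ih =>
      intro hH
      have hηP : η ∈ P ∩ Ioi η₀ := hH (Finset.mem_coe.2 (Finset.mem_insert_self η H'))
      have hH'P : (H' : Set W) ⊆ P ∩ Ioi η₀ :=
        fun x hx => hH (Finset.mem_coe.2 (Finset.mem_insert_of_mem (Finset.mem_coe.1 hx)))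
      obtain ⟨z, hz⟩ := ih hH'P
      by_contra hcon
      rw [not_nonempty_iff_eq_empty] at hcon
      have h1 : insert η H' ∈ O F := ⟨fun x hx => (hH hx).1, hcon⟩
      have h2 : VV U (insert η H') ⊆ closure (⋃ G ∈ O' F, VV U G) :=
        (subset_biUnion_of_mem (u := fun G : Finset W => VV U G) h1).trans (hO'dense F)
      rw [VV_insert] at h2
      have h3 := (hP.2 η hηP.1 H' (fun x hx => ⟨(hH'P hx).1, hmax x (Finset.mem_coe.1 hx)⟩) (O' F)
        (fun G hG x hx => ⟨(hO'sub F hG).1 hx, ?_⟩)).1 h2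
      · have h4 : z ∈ closure (⋃ G ∈ O' F, VV U G) := by
          refine h3 ⟨?_, hz.1⟩
          have h5 := hz.2
          unfold VV at h5
          rw [mem_iInter₂] at h5
          exact h5 δ hδF
        have h5 : IsOpen (VV U H' ∩ VV U F) := (isOpen_VV hU H').inter (isOpen_VV hU F)
        obtain ⟨w, hw1, hw2⟩ := mem_closure_iff.1 h4 _ h5 hz
        rw [mem_iUnion₂] at hw2
        obtain ⟨G, hG, hwG⟩ := hw2
        have h6 := (hO'sub F hG).2
        have h7 : w ∈ VV U G ∩ VV U F := ⟨hwG, hw1.2⟩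
        rw [h6] at h7
        exact h7
      · have h4 : x ∈ T := mem_biUnion (show F ∈ {F : Finset W | (F : Set W) ⊆ C} from hF)
          (mem_biUnion hG hx)
        exact (hTη x h4).trans hηP.2
  intro K hK
  obtain ⟨z, hz⟩ := key (insert δ (K.filter (· ∈ C))) (by
    intro x hx
    rcases Finset.mem_insert.1 (Finset.mem_coe.1 hx) with h | h
    · rw [h]
      exact hδ
    · exact (Finset.mem_filter.1 h).2) (Finset.mem_insert_self _ _) (K.filter (· ∉ C)) (by
    intro x hx
    have h1 := Finset.mem_filter.1 (Finset.mem_coe.1 hx)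
    rcases hK (Finset.mem_coe.2 h1.1) with h | h
    · exact absurd h h1.2
    · exact h)
  refine ⟨z, ?_⟩
  rw [← VV_union] at hz
  refine VV_anti U ?_ hz
  intro x hx
  by_cases h : x ∈ C
  · exact Finset.mem_union_right _ (Finset.mem_insert_of_mem (Finset.mem_filter.2 ⟨hx, h⟩))
  · exact Finset.mem_union_left _ (Finset.mem_filter.2 ⟨hx, h⟩)

end

end Pool.Agent.Helper8.OC
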