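import Pool.Agent.Helper8.OC.Df

/-!
# Small facts

PIECE OC-1.
-/

set_option autoImplicit false

namespace Pool.Agent.Helper8.OC

open Cardinal Set

section

variable {W X : Type} [LinearOrder W] [TopologicalSpace X]

theorem Cen.mono {U : W → Set X} {C D : Set W} (h : Cen U D) (hCD : C ⊆ D) : Cen U C :=
  fun F hF => h F (hF.trans hCD)

theorem Sim.mono {U : W → Set X} {C D : Set W} {ξ η : W} (h : Sim U D ξ η) (hCD : C ⊆ D) :
    Sim U C ξ η :=
  fun H hH G hG => h H (hH.trans hCD) G (fun g hg => (hG g hg).trans hCD)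

theorem Sim.symm {U : W → Set X} {D : Set W} {ξ η : W} (h : Sim U D ξ η) : Sim U D η ξ :=
  fun H hH G hG => (h H hH G hG).symm

theorem Sim.trans {U : W → Set X} {D : Set W} {ξ η ζ : W} (h : Sim U D ξ η)
    (h' : Sim U D η ζ) : Sim U D ξ ζ :=
  fun H hH G hG => (h H hH G hG).trans (h' H hH G hG)

theorem IsCh.mono {U : W → Set X} {P Q : Set W} {δ : W} (h : IsCh U Q δ) (hPQ : P ⊆ Q) :
    IsCh U P δ :=
  ⟨hPQ.trans h.1, fun η hη => (h.2 η (hPQ hη)).mono (inter_subset_inter_left _ hPQ)⟩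

theorem isOpen_VV {U : W → Set X} (hU : ∀ i, IsOpen (U i)) (F : Finset W) : IsOpen (VV U F) :=
  isOpen_biInter_finset fun i _ => hU i

/-- PROOF. Let `P₀ = {η ∈ P | #(P ∩ Iio η) < μ}`, an initial segment of `P`. If `P₀ = P` it is clear.
Otherwise let `η` be the least element of `P \ P₀`; then `P ∩ Iio η ⊆ P₀` (minimality), and
`μ ≤ #(P ∩ Iio η)`. For `η ∈ P₀`: `P₀ ∩ Iio η ⊆ P ∩ Iio η`. -/
theorem exists_len [WellFoundedLT W] {P : Set W} {μ : Cardinal.{0}} (h : μ ≤ #P) :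
    ∃ P₀ ⊆ P, Len P₀ μ := by
  classical
  let P₀ : Set W := {η | η ∈ P ∧ #(P ∩ Iio η : Set W) < μ}
  have hsub : P₀ ⊆ P := fun η hη => hη.1
  refine ⟨P₀, hsub, ?_, ?_⟩
  · by_cases hall : P ⊆ P₀
    · exact h.trans (mk_le_mk_of_subset hall)
    · rw [not_subset] at hall
      have hne : {η | η ∈ P ∧ η ∉ P₀}.Nonempty := hall
      let η := (wellFounded_lt : WellFounded ((· < ·) : W → W → Prop)).min _ hne
      have hη : η ∈ {η | η ∈ P ∧ η ∉ P₀} := WellFounded.min_mem _ _ hne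
      have h1 : μ ≤ #(P ∩ Iio η : Set W) := by
        by_contra hcon
        exact hη.2 ⟨hη.1, not_le.1 hcon⟩
      refine h1.trans (mk_le_mk_of_subset ?_)
      rintro ζ ⟨hζP, hζη⟩
      by_contra hζ
      exact WellFounded.not_lt_min wellFounded_lt {η | η ∈ P ∧ η ∉ P₀} (x := ζ) ⟨hζP, hζ⟩ hζη
  · intro η hη
    exact (mk_le_mk_of_subset (inter_subset_inter_left _ hsub)).trans_lt hη.2

/-- Small subsets are bounded.
PROOF. Otherwise `P ⊆ ⋃ s ∈ S, (P ∩ Iic s)` (linear order), a union of fewer than `μ` sets of size less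
than `μ` (`P ∩ Iic s ⊆ (P ∩ Iio s) ∪ {s}`, `μ` is infinite), so `#P < μ` by regularity
(`Cardinal.card_biUnion_lt_iff_forall_of_isRegular`). -/
theorem Len.bdd {P : Set W} {μ : Cardinal.{0}} (h : Len P μ) (hμ : μ.IsRegular) {S : Set W}
    (hS : S ⊆ P) (hSμ : #S < μ) : ∃ η ∈ P, ∀ s ∈ S, s < η := by
  by_contra hcon
  push Not at hcon
  have h1 : P ⊆ ⋃ s ∈ S, (P ∩ Iic s) := by
    intro η hη
    obtain ⟨s, hs, hle⟩ := hcon η hη
    exact mem_biUnion hs ⟨hη, hle⟩
  have h2 : #(⋃ s ∈ S, (P ∩ Iic s) : Set W) < μ := by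
    rw [card_biUnion_lt_iff_forall_of_isRegular hμ hSμ]
    intro s hs
    have h3 : (P ∩ Iic s : Set W) ⊆ (P ∩ Iio s) ∪ {s} := by
      rintro x ⟨hx, hxs⟩
      rcases lt_or_eq_of_le (show x ≤ s from hxs) with h | h
      · exact Or.inl ⟨hx, h⟩
      · exact Or.inr h
    refine (mk_le_mk_of_subset h3).trans_lt ((mk_union_le _ _).trans_lt ?_)
    refine add_lt_of_lt hμ.aleph0_le (h.2 s (hS hs)) ?_
    rw [mk_singleton]
    exact one_lt_aleph0.trans_le hμ.aleph0_le
  exact absurd (h.1.trans (mk_le_mk_of_subset h1)) (not_le.2 h2)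

/-- In a space whose cellular families have size at most `κ`, every family of open sets has
a subfamily of size at most `κ` with dense union (`κ` infinite or not).
PROOF. Zorn (`zorn_subset`): a maximal pairwise disjoint family `S` of nonempty open sets `u` such
that each `u` is contained in some `O i`, `i ∈ J`. `#S ≤ κ`; choose `i u ∈ J` with `u ⊆ O (i u)`; `J'` is the
set of these `i u`. If `x ∈ O i` is not in the closure of `⋃ i ∈ J', O i` then
`u₀ = O i \ closure (..)` is a nonempty open set that is disjoint from all `u ∈ S` and can be added. -/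
theorem exists_dense {κ : Cardinal.{0}} (hX : Cell X κ) {ι : Type} (O : ι → Set X)
    (hO : ∀ i, IsOpen (O i)) (J : Set ι) :
    ∃ J' ⊆ J, #J' ≤ κ ∧ (⋃ i ∈ J, O i) ⊆ closure (⋃ i ∈ J', O i) := by
  classical
  let F : Set (Set (Set X)) := {S | (∀ u ∈ S, IsOpen u ∧ u.Nonempty) ∧ S.PairwiseDisjoint id ∧
    ∀ u ∈ S, ∃ i ∈ J, u ⊆ O i}
  obtain ⟨S, hS⟩ := zorn_subset F (by
    intro c hc hchain
    refine ⟨⋃₀ c, ⟨?_, ?_, ?_⟩, fun s hs => subset_sUnion_of_mem hs⟩
    · rintro u ⟨s, hs, hu⟩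
      exact (hc hs).1 u hu
    · rintro u ⟨s, hs, hu⟩ v ⟨t, ht, hv⟩ huv
      rcases hchain.total hs ht with h | h
      · exact (hc ht).2.1 (h hu) hv huv
      · exact (hc hs).2.1 hu (h hv) huv
    · rintro u ⟨s, hs, hu⟩
      exact (hc hs).2.2 u hu)
  have hSF : S ∈ F := hS.1
  obtain ⟨hS1, hS2, hS3⟩ := hSF
  choose f hf hf' using hS3
  let J' : Set ι := range fun u : S => f u.1 u.2
  refine ⟨J', ?_, mk_range_le.trans (hX S hS1 hS2), ?_⟩
  · rintro i ⟨u, rfl⟩
    exact hf u.1 u.2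
  · intro x hx
    rw [mem_iUnion₂] at hx
    obtain ⟨i, hi, hxi⟩ := hx
    by_contra hcl
    let u₀ : Set X := O i \ closure (⋃ i ∈ J', O i)
    have hu₀ : IsOpen u₀ := (hO i).sdiff isClosed_closure
    have hne : u₀.Nonempty := ⟨x, hxi, hcl⟩
    have hdis : ∀ u ∈ S, Disjoint u₀ u := by
      intro u hu
      rw [Set.disjoint_left]
      rintro y ⟨_, hy⟩ hyu
      apply hy
      apply subset_closure
      exact mem_biUnion (mem_range_self (⟨u, hu⟩ : S)) (hf' u hu hyu)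
    have hmem : insert u₀ S ∈ F := by
      refine ⟨?_, ?_, ?_⟩
      · intro u hu
        rcases hu with rfl | hu
        · exact ⟨hu₀, hne⟩
        · exact hS1 u hu
      · rw [pairwiseDisjoint_insert]
        exact ⟨hS2, fun u hu _ => hdis u hu⟩
      · intro u hu
        rcases hu with rfl | hu
        · exact ⟨i, hi, diff_subset⟩
        · exact ⟨f u hu, hf u hu, hf' u hu⟩
    have h1 : u₀ ∈ S := hS.2 hmem (subset_insert _ _) (mem_insert _ _)
    have h2 := hdis u₀ h1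
    rw [disjoint_self] at h2
    exact hne.ne_empty h2

end

end Pool.Agent.Helper8.OC
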