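import Pool.Agent.Helper8.OC.Ins

/-!
# One stage of the construction

PIECE OC-5.
-/

set_option autoImplicit false

namespace Pool.Agent.Helper8.OC

open Cardinal Set

section

variable {W X : Type} [LinearOrder W] [WellFoundedLT W] [TopologicalSpace X]

/-- recursion with choices -/
theorem exists_rec (Q : W → (W → W) → W → Prop)
    (hQ : ∀ y f g η, (∀ y' < y, f y' = g y') → Q y f η → Q y g η) (D : Set W)
    (h : ∀ y ∈ D, ∀ f, (∀ y' ∈ D, y' < y → Q y' f (f y')) → ∃ η, Q y f η) :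
    ∃ c : W → W, ∀ y ∈ D, Q y c (c y) := by
  classical
  let c : W → W := (wellFounded_lt : WellFounded ((· < ·) : W → W → Prop)).fix
    (C := fun _ => W) (fun y ih =>
      if h : ∃ η, Q y (fun y' => if h' : y' < y then ih y' h' else y) η then h.choose else y)
  have hc : ∀ y, c y = if h : ∃ η, Q y (fun y' => if y' < y then c y' else y) η
      then h.choose else y := by
    intro y
    change (wellFounded_lt : WellFounded ((· < ·) : W → W → Prop)).fix _ y = _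
    rw [WellFounded.fix_eq]
    rfl
  refine ⟨c, fun y => ?_⟩
  induction y using WellFoundedLT.induction with
  | ind y ih =>
    intro hy
    obtain ⟨η, hη⟩ := h y hy c fun y' hy' hlt => ih y' hlt hy'
    have h1 : ∃ η, Q y (fun y' => if y' < y then c y' else y) η :=
      ⟨η, hQ y _ _ η (fun y' hy' => by rw [if_pos hy']) hη⟩
    have h2 := hc y
    rw [dif_pos h1] at h2
    have h3 := h1.choose_spec
    rw [← h2] at h3
    exact hQ y _ _ _ (fun y' hy' => by rw [if_pos hy']) h3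

/-- finite character -/
theorem cen_initial {U : W → Set X} {B I : Set W} {c : W → W} (h0 : Cen U B)
    (h : ∀ y ∈ I, Cen U (B ∪ c '' (I ∩ Iic y))) : Cen U (B ∪ c '' I) := by
  classical
  have key : ∀ F : Finset W, (F : Set W) ⊆ B ∪ c '' I →
      (F : Set W) ⊆ B ∨ ∃ y ∈ I, (F : Set W) ⊆ B ∪ c '' (I ∩ Iic y) := by
    intro F
    induction F using Finset.induction_on with
    | empty =>
      intro _
      left
      rw [Finset.coe_empty]
      exact empty_subset B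
    | insert a F _ ih =>
      intro hF
      rw [Finset.coe_insert] at hF ⊢
      have h1 := ih ((subset_insert _ _).trans hF)
      have h2 : ∀ y y', y ≤ y' → B ∪ c '' (I ∩ Iic y) ⊆ B ∪ c '' (I ∩ Iic y') := fun y y' hy =>
        union_subset_union_right _ (image_mono (inter_subset_inter_right _ (Iic_subset_Iic.2 hy)))
      rcases hF (mem_insert a _) with ha | ⟨y', hy', rfl⟩
      · rcases h1 with h1 | ⟨y, hy, h1⟩
        · exact Or.inl (insert_subset ha h1)
        · exact Or.inr ⟨y, hy, insert_subset (Or.inl ha) h1⟩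
      · right
        rcases h1 with h1 | ⟨y, hy, h1⟩
        · exact ⟨y', hy', insert_subset (Or.inr ⟨y', ⟨hy', le_rfl⟩, rfl⟩)
            (h1.trans subset_union_left)⟩
        · rcases le_total y y' with h3 | h3
          · exact ⟨y', hy', insert_subset (Or.inr ⟨y', ⟨hy', le_rfl⟩, rfl⟩)
              (h1.trans (h2 y y' h3))⟩
          · exact ⟨y, hy, insert_subset (Or.inr ⟨y', ⟨hy', h3⟩, rfl⟩) h1⟩
  intro F hF
  rcases key F hF with h1 | ⟨y, hy, h1⟩
  · exact h0 F h1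
  · exact h y hy F h1

/-- One stage.
PROOF. Let `D = S' \ S`, `nx y` the least element of `S` above `y ∈ D`, `P x` a chain of length `μ n` for
`b x` inside `AA U μ x` above `γ x`. Define `c y`, `y ∈ D`, by recursion: `c y ∈ P (nx y)` is above an
element of `P (nx y)` above all `c y'`, `y' < y`, `nx y' = nx y`, and everything is centred
(`insertion`, `Len.bdd`, `cen_initial`). -/
theorem step {κ : Cardinal.{0}} (μ : ℕ → Cardinal.{0}) (n : ℕ) (hμ : (μ n).IsRegular)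
    (hκμ : κ < μ n) (hμ0 : ℵ₀ < μ n) (hX : Cell X κ) {U : W → Set X} (hU : ∀ i, IsOpen (U i))
    {S S' : Set W} {ε : W} (hε : ε ∈ S) (hS' : S' ⊆ Iic ε) (hSS : S ⊆ S') (hc : #S' < μ n)
    {b : W → W} (hb : Good U μ S b) : ∃ b', Good U μ S' b' ∧ ∀ x ∈ S, b' x = b x := by
  classical
  haveI : Nonempty W := ⟨ε⟩
  obtain ⟨D, hD⟩ : ∃ D : Set W, D = {y | y ∈ S' ∧ y ∉ S} := ⟨_, rfl⟩
  have hDS : D ⊆ S' := fun y hy => by
    rw [hD] at hy
    exact hy.1
  have hDn : ∀ y ∈ D, y ∉ S := fun y hy => by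
    rw [hD] at hy
    exact hy.2
  have hnx : ∀ y ∈ D, ∃ x ∈ S, y < x ∧ ∀ x' ∈ S, y < x' → x ≤ x' := by
    intro y hy
    have h1 : {x | x ∈ S ∧ y < x}.Nonempty :=
      ⟨ε, hε, lt_of_le_of_ne (hS' (hDS hy)) fun h => hDn y hy (h ▸ hε)⟩
    have h2 := WellFounded.min_mem (wellFounded_lt : WellFounded ((· < ·) : W → W → Prop)) _ h1
    refine ⟨_, h2.1, h2.2, fun x' hx' hlt => ?_⟩
    exact not_lt.1 (WellFounded.not_lt_min wellFounded_lt {x | x ∈ S ∧ y < x} (x := x') ⟨hx', hlt⟩)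
  choose! nx hnx1 hnx2 hnx3 using hnx
  have hP : ∀ x ∈ S, ∃ γ, γ < b x ∧ (∀ z ∈ S, z < x → b z ≤ γ) ∧
      Rch U μ (AA U μ x) γ (b x) n := by
    intro x hx
    obtain ⟨γ, h1, h2⟩ := hb.gap x hx
    exact ⟨γ, h1, h2, hb.ok x hx x le_rfl γ h1 n⟩
  choose! γ hγ1 hγ2 hγ3 using hP
  choose! P hP1 hP2 hP3 hP4 using hγ3
  have hsub : ∀ A : Set W, A ⊆ S' → ∀ f : W → W, #(f '' A) < μ n := fun A hA f =>
    mk_image_le.trans_lt ((mk_le_mk_of_subset hA).trans_lt hc)
  let Q : W → (W → W) → W → Prop := fun y f η =>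
    η ∈ P (nx y) ∧ (∃ η₁ ∈ P (nx y), η₁ < η ∧ ∀ y' ∈ D, y' < y → nx y' = nx y → f y' ≤ η₁) ∧
      Cen U ((b '' S ∪ f '' (D ∩ Iio y)) ∪ {η})
  have hQ : ∀ y f g η, (∀ y' < y, f y' = g y') → Q y f η → Q y g η := by
    rintro y f g η hfg ⟨h1, ⟨η₁, h2, h3, h4⟩, h5⟩
    refine ⟨h1, ⟨η₁, h2, h3, fun y' hy' hlt he => ?_⟩, ?_⟩
    · rw [← hfg y' hlt]
      exact h4 y' hy' hlt he
    · have h6 : g '' (D ∩ Iio y) = f '' (D ∩ Iio y) :=
        image_congr fun y' hy' => (hfg y' hy'.2).symm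
      rw [h6]
      exact h5
  -- initial segments are centred
  have hini : ∀ y : W, ∀ f : W → W, (∀ y' ∈ D, y' < y → Q y' f (f y')) →
      Cen U (b '' S ∪ f '' (D ∩ Iio y)) := by
    intro y f hf
    refine cen_initial hb.cen fun y' hy' => ?_
    refine (hf y' hy'.1 hy'.2).2.2.mono ?_
    rintro w (hw | ⟨z, ⟨hz, hzy⟩, rfl⟩)
    · exact Or.inl (Or.inl hw)
    · rcases lt_or_eq_of_le (show z ≤ y' from hzy) with h | h
      · exact Or.inl (Or.inr ⟨z, ⟨hz.1, h⟩, rfl⟩)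
      · exact Or.inr (by rw [h]; rfl)
  obtain ⟨c, hcQ⟩ : ∃ c : W → W, ∀ y ∈ D, Q y c (c y) := by
    refine exists_rec Q hQ D fun y hy f hf => ?_
    have hx := hnx1 y hy
    have h1 := hini y f hf
    have h2 : #(b '' S ∪ f '' (D ∩ Iio y) : Set W) < μ n := by
      refine (mk_union_le _ _).trans_lt (add_lt_of_lt hμ.aleph0_le (hsub S hSS b) ?_)
      exact hsub _ (inter_subset_left.trans hDS) f
    obtain ⟨η₀, hη₀, h3⟩ := insertion hμ hκμ hμ0 hX hU h1 (Or.inl (mem_image_of_mem b hx)) h2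
      (hP3 _ hx) (hP4 _ hx)
    obtain ⟨T, hT⟩ : ∃ T : Set W, T = f '' (D ∩ {y' | y' < y ∧ nx y' = nx y}) ∪ {η₀} := ⟨_, rfl⟩
    have hTP : T ⊆ P (nx y) := by
      rw [hT]
      rintro w (⟨y', ⟨hy', hlt, he⟩, rfl⟩ | hw)
      · rw [← he]
        exact (hf y' hy' hlt).1
      · rw [mem_singleton_iff.1 hw]
        exact hη₀
    have hTμ : #T < μ n := by
      rw [hT]
      refine (mk_union_le _ _).trans_lt (add_lt_of_lt hμ.aleph0_le
        (hsub _ (inter_subset_left.trans hDS) f) ?_)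
      rw [mk_singleton]
      exact one_lt_aleph0.trans hμ0
    obtain ⟨η₁, hη₁, hη₁'⟩ := (hP4 _ hx).bdd hμ hTP hTμ
    obtain ⟨η, hη, hη'⟩ := (hP4 _ hx).bdd hμ (S := {η₁}) (singleton_subset_iff.2 hη₁) (by
      rw [mk_singleton]
      exact one_lt_aleph0.trans hμ0)
    have hlt : η₁ < η := hη' η₁ rfl
    refine ⟨η, hη, ⟨η₁, hη₁, hlt, fun y' hy' h4 h5 => ?_⟩, ?_⟩
    · refine (hη₁' _ ?_).le
      rw [hT]
      exact Or.inl ⟨y', ⟨hy', h4, h5⟩, rfl⟩
    · refine h3.mono (union_subset_union_right _ ?_)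
      rw [singleton_subset_iff]
      refine ⟨hη, ?_⟩
      have h4 : η₀ ∈ T := by
        rw [hT]
        exact Or.inr rfl
      exact (hη₁' η₀ h4).trans hlt
  -- the values
  have hcP : ∀ y ∈ D, c y ∈ P (nx y) := fun y hy => (hcQ y hy).1
  have hclt : ∀ y ∈ D, c y < b (nx y) := fun y hy => (hP3 _ (hnx1 y hy)).1 (hcP y hy)
  obtain ⟨b', hb'S, hb'D⟩ : ∃ b' : W → W, (∀ x ∈ S, b' x = b x) ∧ ∀ y ∈ D, b' y = c y :=
    ⟨fun x => if x ∈ S then b x else c x, fun x hx => if_pos hx, fun y hy => if_neg (hDn y hy)⟩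
  have hcase : ∀ x ∈ S', x ∈ S ∨ x ∈ D := by
    intro x hx
    by_cases h : x ∈ S
    · exact Or.inl h
    · refine Or.inr ?_
      rw [hD]
      exact ⟨hx, h⟩
  -- values at points with a smaller next point
  have hsmall : ∀ x ∈ S, ∀ z ∈ S', z < x → (z ∈ D ∧ nx z = x) ∨ b' z ≤ γ x := by
    intro x hx z hz hlt
    rcases hcase z hz with h | h
    · right
      rw [hb'S z h]
      exact hγ2 x hx z h hlt
    · rcases lt_or_eq_of_le (hnx3 z h x hx hlt) with h1 | h1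
      · right
        rw [hb'D z h]
        exact (hclt z h).le.trans (hγ2 x hx _ (hnx1 z h) h1)
      · exact Or.inl ⟨h, h1⟩
  have hgap : ∀ x ∈ S', ∃ γ, γ < b' x ∧ ∀ z ∈ S', z < x → b' z ≤ γ := by
    intro x hx
    rcases hcase x hx with h | h
    · obtain ⟨η, hη, hη'⟩ := (hP4 x h).bdd hμ (S := c '' (D ∩ {y | nx y = x})) (by
        rintro w ⟨y, ⟨hy, he⟩, rfl⟩
        have h1 := hcP y hy
        rw [show nx y = x from he] at h1
        exact h1) (hsub _ (inter_subset_left.trans hDS) c)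
      refine ⟨η, ?_, fun z hz hlt => ?_⟩
      · rw [hb'S x h]
        exact (hP3 x h).1 hη
      · rcases hsmall x h z hz hlt with ⟨h1, h2⟩ | h1
        · rw [hb'D z h1]
          exact (hη' _ ⟨z, ⟨h1, h2⟩, rfl⟩).le
        · exact h1.trans (le_of_lt (hP2 x h hη))
    · obtain ⟨h1, ⟨η₁, h2, h3, h4⟩, h5⟩ := hcQ x h
      refine ⟨η₁, ?_, fun z hz hlt => ?_⟩
      · rw [hb'D x h]
        exact h3
      · rcases hsmall (nx x) (hnx1 x h) z hz (hlt.trans (hnx2 x h)) with ⟨h6, h7⟩ | h6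
        · rw [hb'D z h6]
          exact h4 z h6 hlt h7
        · exact h6.trans (le_of_lt (hP2 _ (hnx1 x h) h2))
  refine ⟨b', ⟨?_, ?_, hgap, ?_⟩, hb'S⟩
  · intro z hz x hx hlt
    obtain ⟨γ', h1, h2⟩ := hgap x hx
    exact (h2 z hz hlt).trans_lt h1
  · intro x hx
    rcases hcase x hx with h | h
    · rw [hb'S x h]
      exact hb.ok x h
    · rw [hb'D x h]
      have h1 : c x ∈ AA U μ (nx x) := hP1 _ (hnx1 x h) (hcP x h)
      rw [mem_AA] at h1
      exact fun j hj γ' hγ' m => h1 j (hj.trans_lt (hnx2 x h)) γ' hγ' m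
  · have h1 : Cen U (b '' S ∪ c '' D) := by
      refine cen_initial hb.cen fun y hy => ?_
      refine (hcQ y hy).2.2.mono ?_
      rintro w (hw | ⟨z, ⟨hz, hzy⟩, rfl⟩)
      · exact Or.inl (Or.inl hw)
      · rcases lt_or_eq_of_le (show z ≤ y from hzy) with h | h
        · exact Or.inl (Or.inr ⟨z, ⟨hz, h⟩, rfl⟩)
        · exact Or.inr (by rw [h]; rfl)
    refine h1.mono ?_
    rintro w ⟨x, hx, rfl⟩
    rcases hcase x hx with h | h
    · rw [hb'S x h]
      exact Or.inl (mem_image_of_mem b h)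
    · rw [hb'D x h]
      exact Or.inr (mem_image_of_mem c h)

end

end Pool.Agent.Helper8.OC
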