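import Pool.Agent.Helper8.OC.Sm

/-!
# The tree

PIECE OC-2.
-/

set_option autoImplicit false

namespace Pool.Agent.Helper8.OC

open Cardinal Set

section

variable {W X : Type} [LinearOrder W] [WellFoundedLT W] [TopologicalSpace X]

/-- The set of predecessors of `δ` in the tree: `η ∈ PT δ` iff `η ∈ R`, `η < δ` and `η` and `δ` have the same
type over `PT δ ∩ Iio η`. -/
def PT (U : W → Set X) (R : Set W) (δ : W) : Set W :=
  {η | (wellFounded_lt : WellFounded ((· < ·) : W → W → Prop)).fix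
    (C := fun _ => Prop)
    (fun η ih => η ∈ R ∧ η < δ ∧ Sim U {ζ | ∃ h : ζ < η, ih ζ h} η δ) η}

theorem mem_PT {U : W → Set X} {R : Set W} {δ η : W} :
    η ∈ PT U R δ ↔ η ∈ R ∧ η < δ ∧ Sim U (PT U R δ ∩ Iio η) η δ := by
  have h : (PT U R δ ∩ Iio η) = {ζ | ∃ _ : ζ < η, ζ ∈ PT U R δ} := by
    ext ζ
    constructor
    · rintro ⟨h1, h2⟩
      exact ⟨h2, h1⟩
    · rintro ⟨h2, h1⟩
      exact ⟨h1, h2⟩
  rw [h]
  conv_lhs => unfold PT
  rw [mem_setOf_eq, WellFounded.fix_eq]
  rfl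

/-- PROOF. By induction on `ζ < η`: `PT η ∩ Iio ζ = PT δ ∩ Iio ζ` and `η`, `δ` have the same type over this
set. -/
theorem PT_inter {U : W → Set X} {R : Set W} {δ η : W} (h : η ∈ PT U R δ) :
    PT U R η = PT U R δ ∩ Iio η := by
  have hη := mem_PT.1 h
  have key : ∀ ζ : W, ζ < η → (ζ ∈ PT U R η ↔ ζ ∈ PT U R δ) := by
    intro ζ
    induction ζ using WellFoundedLT.induction with
    | ind ζ ih =>
      intro hζ
      have h1 : PT U R η ∩ Iio ζ = PT U R δ ∩ Iio ζ := by
        ext ξ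
        constructor
        · rintro ⟨h1, h2⟩
          exact ⟨(ih ξ h2 (h2.trans hζ)).1 h1, h2⟩
        · rintro ⟨h1, h2⟩
          exact ⟨(ih ξ h2 (h2.trans hζ)).2 h1, h2⟩
      have h2 : Sim U (PT U R δ ∩ Iio ζ) η δ :=
        hη.2.2.mono (inter_subset_inter_right _ (Iio_subset_Iio hζ.le))
      rw [mem_PT, mem_PT, h1]
      constructor
      · rintro ⟨h3, _, h5⟩
        exact ⟨h3, hζ.trans hη.2.1, h5.trans h2⟩
      · rintro ⟨h3, _, h5⟩
        exact ⟨h3, hζ, h5.trans h2.symm⟩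
  ext ζ
  constructor
  · intro h1
    have h2 := (mem_PT.1 h1).2.1
    exact ⟨(key ζ h2).1 h1, h2⟩
  · rintro ⟨h1, h2⟩
    exact (key ζ h2).2 h1

theorem PT_sub {U : W → Set X} {R : Set W} {δ : W} : PT U R δ ⊆ R :=
  fun _ h => (mem_PT.1 h).1

theorem PT_lt {U : W → Set X} {R : Set W} {δ : W} : PT U R δ ⊆ Iio δ :=
  fun _ h => (mem_PT.1 h).2.1

theorem PT_isCh {U : W → Set X} {R : Set W} {δ : W} : IsCh U (PT U R δ) δ :=
  ⟨PT_lt, fun _ h => (mem_PT.1 h).2.2⟩

/-- PROOF. If `δ < δ'` then `δ ∈ PT δ'` by `mem_PT`. -/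
theorem PT_inj {U : W → Set X} {R : Set W} {δ δ' : W} (h : δ ∈ R) (h' : δ' ∈ R)
    (he : PT U R δ = PT U R δ') (hs : Sim U (PT U R δ) δ δ') : δ = δ' := by
  rcases lt_trichotomy δ δ' with h1 | h1 | h1
  · exfalso
    have h2 : δ ∈ PT U R δ' := by
      rw [mem_PT]
      refine ⟨h, h1, ?_⟩
      rw [← he]
      exact hs.mono inter_subset_left
    rw [← he] at h2
    exact lt_irrefl δ (PT_lt h2)
  · exact h1
  · exfalso
    have h2 : δ' ∈ PT U R δ := by
      rw [mem_PT]
      exact ⟨h', h1, (hs.mono inter_subset_left).symm⟩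
    rw [he] at h2
    exact lt_irrefl δ' (PT_lt h2)

/-- PROOF. The type of `ξ` over `D` is the set of pairs `(H, G)`, `H : Finset D`, `G : Set (Finset D)`. The
number of types is at most `2 ^ (#(Finset D) * 2 ^ #(Finset D)) < β`. -/
theorem types {β : Cardinal.{0}} (hβ : β.IsStrongLimit) (hβ0 : ℵ₀ < β) (U : W → Set X) {ν : Cardinal.{0}}
    (hν : ν < β) :
    ∃ ρ < β, ∀ D : Set W, #D ≤ ν → ∃ (T : Type) (t : W → T), #T ≤ ρ ∧
      ∀ ξ η, t ξ = t η → Sim U D ξ η := by
  classical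
  set ν' := max ν ℵ₀ with hν'
  have h1 : ν' < β := max_lt hν hβ0
  have h2 : (2 : Cardinal.{0}) ^ ν' < β := hβ.isStrongPrelimit h1
  have h3 : ν' * 2 ^ ν' < β := mul_lt_of_lt hβ0.le h1 h2
  refine ⟨2 ^ (ν' * 2 ^ ν'), hβ.isStrongPrelimit h3, fun D hD => ?_⟩
  refine ⟨Set (Finset D × Set (Finset D)), fun ξ => {q | U ξ ∩ VV U
    (q.1.map (Function.Embedding.subtype _)) ⊆
      closure (⋃ g ∈ q.2, VV U (g.map (Function.Embedding.subtype _)))}, ?_, ?_⟩
  · have h4 : #(Finset D) ≤ ν' := by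
      rcases finite_or_infinite D with hf | hf
      · have : Finite (Finset D) := inferInstance
        exact (lt_aleph0_of_finite _).le.trans (le_max_right _ _)
      · rw [mk_finset_of_infinite]
        exact hD.trans (le_max_left _ _)
    rw [mk_set, mk_prod, lift_id, lift_id, mk_set]
    refine power_le_power_left two_ne_zero ?_
    exact mul_le_mul' h4 (power_le_power_left two_ne_zero h4)
  · intro ξ η he H hH G hG
    have hH' : (H.subtype (· ∈ D)).map (Function.Embedding.subtype _) = H :=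
      Finset.subtype_map_of_mem fun x hx => hH hx
    let G' : Set (Finset D) := {g | g.map (Function.Embedding.subtype _) ∈ G}
    have hG' : (⋃ g ∈ G', VV U (g.map (Function.Embedding.subtype _))) = ⋃ g ∈ G, VV U g := by
      apply Subset.antisymm
      · refine iUnion₂_subset fun g hg => ?_
        exact subset_biUnion_of_mem (u := fun g => VV U g) hg
      · refine iUnion₂_subset fun g hg => ?_
        have hg' : (g.subtype (· ∈ D)).map (Function.Embedding.subtype _) = g :=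
          Finset.subtype_map_of_mem fun x hx => hG g hg hx
        have hmem : g.subtype (· ∈ D) ∈ G' := by
          change (g.subtype (· ∈ D)).map (Function.Embedding.subtype _) ∈ G
          rw [hg']
          exact hg
        have h5 := subset_biUnion_of_mem
          (u := fun g : Finset D => VV U (g.map (Function.Embedding.subtype _))) hmem
        change VV U ((g.subtype (· ∈ D)).map (Function.Embedding.subtype _)) ⊆ _ at h5
        rw [hg'] at h5
        exact h5
    have h6 := Set.ext_iff.1 he (H.subtype (· ∈ D), G')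
    simp only [mem_setOf_eq] at h6
    rw [hH', hG'] at h6
    exact h6

/-- The arities of the codes. -/
private def Tr_ar (Θ M : Type) : Option Θ → Type
  | none => Empty
  | some _ => M

private def Tr_leaf (Θ M : Type) : WType (Tr_ar Θ M) := ⟨none, fun x => x.elim⟩

open Classical in
private noncomputable def Tr_code {Θ M : Type} (t : W → Θ) (e : W → M → W) (δ : W) :
    WType (Tr_ar Θ M) :=
  (wellFounded_lt : WellFounded ((· < ·) : W → W → Prop)).fix
    (C := fun _ => WType (Tr_ar Θ M))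
    (fun δ ih => ⟨some (t δ), fun m : M => if h : e δ m < δ then ih (e δ m) h
      else Tr_leaf Θ M⟩) δ

private theorem Tr_code_eq {Θ M : Type} (t : W → Θ) (e : W → M → W) (δ : W) :
    Tr_code t e δ = ⟨some (t δ), fun m : M => (open Classical in if e δ m < δ then Tr_code t e (e δ m)
      else Tr_leaf Θ M)⟩ := by
  classical
  unfold Tr_code
  rw [WellFounded.fix_eq]
  rfl

private theorem Tr_leaf_ne {Θ M : Type} (t : W → Θ) (e : W → M → W) (δ : W) :
    Tr_code t e δ ≠ Tr_leaf Θ M := by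
  rw [Tr_code_eq]
  intro h
  have h1 := (WType.mk.inj h).1
  exact absurd h1 (by simp)

private theorem Tr_code_inj {Θ M : Type} (t : W → Θ) (e : W → M → W) {δ δ' : W}
    (h : Tr_code t e δ = Tr_code t e δ') :
    t δ = t δ' ∧ ∀ m : M, (e δ m < δ → e δ' m < δ' ∧ Tr_code t e (e δ m) = Tr_code t e (e δ' m)) ∧
      (e δ' m < δ' → e δ m < δ) := by
  classical
  rw [Tr_code_eq t e δ, Tr_code_eq t e δ'] at h
  obtain ⟨h1, h2⟩ := WType.mk.inj h
  have h3 : t δ = t δ' := Option.some.inj h1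
  refine ⟨h3, fun m => ?_⟩
  have h5 : ∀ (a b : Θ) (_ : a = b) (f : Tr_ar Θ M (some a) → WType (Tr_ar Θ M))
      (g : Tr_ar Θ M (some b) → WType (Tr_ar Θ M)), HEq f g → ∀ m : M, f m = g m := by
    intro a b hab f g hfg m
    subst hab
    rw [eq_of_heq hfg]
  have h4 := h5 _ _ h3 _ _ h2 m
  change (if e δ m < δ then Tr_code t e (e δ m) else Tr_leaf Θ M) =
    (if e δ' m < δ' then Tr_code t e (e δ' m) else Tr_leaf Θ M) at h4
  constructor
  · intro h6
    rw [if_pos h6] at h4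
    by_cases h7 : e δ' m < δ'
    · rw [if_pos h7] at h4
      exact ⟨h7, h4⟩
    · rw [if_neg h7] at h4
      exact absurd h4 (Tr_leaf_ne t e _)
  · intro h6
    rw [if_pos h6] at h4
    by_contra h7
    rw [if_neg h7] at h4
    exact Tr_leaf_ne t e _ h4.symm

theorem tree_bound {β μ : Cardinal.{0}} (hβ : β.IsStrongLimit) (hβ0 : ℵ₀ < β) (hμ : μ.IsRegular)
    (hμβ : μ < β) (U : W → Set X) (R : Set W)
    (h : ∀ δ ∈ R, ∀ P ⊆ R, IsCh U P δ → #P < μ) : #R < β := by
  classical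
  have hPT : ∀ δ ∈ R, #(PT U R δ) < μ := fun δ hδ => h δ hδ _ PT_sub PT_isCh
  obtain ⟨ρ, hρ, hT⟩ := types hβ hβ0 U hμβ
  -- types
  have ht : ∀ D : Set W, ∃ t : W → ρ.out, #D ≤ μ → ∀ ξ η, t ξ = t η → Sim U D ξ η := by
    intro D
    by_cases hD : #D ≤ μ
    · obtain ⟨T, t, h1, h2⟩ := hT D hD
      rw [← mk_out ρ] at h1
      obtain ⟨f⟩ := h1
      exact ⟨fun ξ => f (t ξ), fun _ ξ η hξη => h2 ξ η (f.injective hξη)⟩
    · by_cases hW : Nonempty W
      · obtain ⟨T, t, h1, _⟩ := hT ∅ (by rw [mk_emptyCollection]; exact zero_le)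
        rw [← mk_out ρ] at h1
        obtain ⟨f⟩ := h1
        exact ⟨fun ξ => f (t ξ), fun h1 => absurd h1 hD⟩
      · exact ⟨fun ξ => absurd ⟨ξ⟩ hW, fun h1 => absurd h1 hD⟩
  choose t ht using ht
  -- enumerations
  have he : ∀ δ : W, ∃ e : μ.out → W, δ ∈ R → ∀ η, η < δ → ((∃ m, e m = η) ↔ η ∈ PT U R δ) := by
    intro δ
    by_cases hδ : δ ∈ R
    · have h1 := (hPT δ hδ).le
      rw [← mk_out μ] at h1
      obtain ⟨f⟩ := h1
      refine ⟨fun m => if h : ∃ η : PT U R δ, f η = m then (h.choose : W) else δ, fun _ η hη => ?_⟩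
      constructor
      · rintro ⟨m, hm⟩
        by_cases h2 : ∃ η : PT U R δ, f η = m
        · simp only [dif_pos h2] at hm
          rw [← hm]
          exact h2.choose.2
        · simp only [dif_neg h2] at hm
          exact absurd hm hη.ne'
      · intro h2
        have h3 : ∃ η' : PT U R δ, f η' = f ⟨η, h2⟩ := ⟨_, rfl⟩
        refine ⟨f ⟨η, h2⟩, ?_⟩
        simp only [dif_pos h3]
        have h4 := f.injective h3.choose_spec
        rw [h4]
    · exact ⟨fun _ => δ, fun h1 => absurd h1 hδ⟩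
  choose e he using he
  have hinj : ∀ δ : W, δ ∈ R → ∀ δ' : W, δ' ∈ R →
      Tr_code (fun δ => t (PT U R δ) δ) e δ = Tr_code (fun δ => t (PT U R δ) δ) e δ' → δ = δ' := by
    intro δ
    induction δ using WellFoundedLT.induction with
    | ind δ ih =>
      intro hδ δ' hδ' hc
      have hc' := Tr_code_inj (fun δ => t (PT U R δ) δ) e hc
      have hsub : PT U R δ = PT U R δ' := by
        ext η
        constructor
        · intro hη
          have hlt : η < δ := PT_lt hη
          obtain ⟨m, hm⟩ := (he δ hδ η hlt).2 hη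
          have h1 := (hc'.2 m).1 (by rw [hm]; exact hlt)
          rw [hm] at h1
          have h2 : e δ' m ∈ PT U R δ' := (he δ' hδ' _ h1.1).1 ⟨m, rfl⟩
          have h3 := ih η hlt (PT_sub hη) (e δ' m) (PT_sub h2) h1.2
          rw [h3]
          exact h2
        · intro hη
          have hlt : η < δ' := PT_lt hη
          obtain ⟨m, hm⟩ := (he δ' hδ' η hlt).2 hη
          have h0 := (hc'.2 m).2 (by rw [hm]; exact hlt)
          have h1 := (hc'.2 m).1 h0
          have h2 : e δ m ∈ PT U R δ := (he δ hδ _ h0).1 ⟨m, rfl⟩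
          have h3 := ih (e δ m) h0 (PT_sub h2) (e δ' m)
            (PT_sub ((he δ' hδ' _ h1.1).1 ⟨m, rfl⟩)) h1.2
          rw [hm] at h3
          rw [← h3]
          exact h2
      refine PT_inj hδ hδ' hsub ?_
      have h1 : t (PT U R δ) δ = t (PT U R δ') δ' := hc'.1
      rw [← hsub] at h1
      exact ht _ (hPT δ hδ).le δ δ' h1
  have hμ0 : ℵ₀ ≤ μ := hμ.aleph0_le
  obtain ⟨τ, hτ⟩ : ∃ τ : Cardinal.{0}, τ = max ρ μ := ⟨_, rfl⟩
  have hτβ : τ < β := by
    rw [hτ]
    exact max_lt hρ hμβ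
  have hτ0 : ℵ₀ ≤ τ := by
    rw [hτ]
    exact hμ0.trans (le_max_right _ _)
  have hμτ : μ ≤ τ := by
    rw [hτ]
    exact le_max_right _ _
  have hρτ : ρ ≤ τ := by
    rw [hτ]
    exact le_max_left _ _
  have hθβ : (2 : Cardinal.{0}) ^ τ < β := hβ.isStrongPrelimit hτβ
  have hτθ : τ ≤ 2 ^ τ := (cantor τ).le
  have hθ0 : ℵ₀ ≤ (2 : Cardinal.{0}) ^ τ := hτ0.trans hτθ
  have hθμ : ((2 : Cardinal.{0}) ^ τ) ^ μ = 2 ^ τ := by
    rw [← power_mul, mul_eq_left hτ0 hμτ (aleph0_pos.trans_le hμ0).ne']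
  have hcount : #(WType (Tr_ar ρ.out μ.out)) ≤ 2 ^ τ := by
    refine WType.cardinalMk_le_of_le ?_
    have h1 : ∀ a : Option ρ.out, ((2 : Cardinal.{0}) ^ τ) ^ #(Tr_ar ρ.out μ.out a) ≤ 2 ^ τ := by
      intro a
      cases a with
      | none =>
        change ((2 : Cardinal.{0}) ^ τ) ^ #Empty ≤ 2 ^ τ
        rw [mk_empty, power_zero]
        exact one_le_aleph0.trans hθ0
      | some a =>
        change ((2 : Cardinal.{0}) ^ τ) ^ #(μ.out) ≤ 2 ^ τ
        rw [mk_out, hθμ]
    refine (sum_le_sum _ _ h1).trans ?_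
    rw [sum_const', mk_option, mk_out]
    refine mul_le_of_le hθ0 ?_ le_rfl
    exact add_le_of_le hθ0 (hρτ.trans hτθ) (one_le_aleph0.trans hθ0)
  have hRle : #R ≤ #(WType (Tr_ar ρ.out μ.out)) := by
    refine mk_le_of_injective (f := fun δ : R => Tr_code (fun δ => t (PT U R δ) δ) e δ) ?_
    intro δ δ' h1
    exact Subtype.ext (hinj δ δ.2 δ' δ'.2 h1)
  exact (hRle.trans hcount).trans_lt hθβ

end

end Pool.Agent.Helper8.OC
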